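import Pool.Agent.W172.MK.Stm

/-!
# MK-STEPO
-/

set_option autoImplicit false

open MeasureTheory ProbabilityTheory Filter Topology

namespace Pool.Agent.W74.MK

open Pool.Agent.W172.MK

/-- the pi system of intersections -/
def inter2 {Ω : Type} (m1 m2 : MeasurableSpace Ω) : Set (Set Ω) :=
  {s | ∃ G B : Set Ω, MeasurableSet[m1] G ∧ MeasurableSet[m2] B ∧ s = G ∩ B}

theorem inter2_pi {Ω : Type} (m1 m2 : MeasurableSpace Ω) : IsPiSystem (inter2 m1 m2) := by
  rintro _ ⟨G, B, hG, hB, rfl⟩ _ ⟨G', B', hG', hB', rfl⟩ -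
  refine ⟨G ∩ G', B ∩ B', @MeasurableSet.inter _ m1 _ _ hG hG',
    @MeasurableSet.inter _ m2 _ _ hB hB', ?_⟩
  ext x
  simp only [Set.mem_inter_iff]
  tauto

theorem inter2_gen {Ω : Type} (m1 m2 : MeasurableSpace Ω) :
    m1 ⊔ m2 = MeasurableSpace.generateFrom (inter2 m1 m2) := by
  apply le_antisymm
  · refine sup_le ?_ ?_
    · intro s hs
      apply MeasurableSpace.measurableSet_generateFrom
      exact ⟨s, Set.univ, hs, @MeasurableSet.univ _ m2, (Set.inter_univ s).symm⟩
    · intro s hs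
      apply MeasurableSpace.measurableSet_generateFrom
      exact ⟨Set.univ, s, @MeasurableSet.univ _ m1, hs, (Set.univ_inter s).symm⟩
  · apply MeasurableSpace.generateFrom_le
    rintro _ ⟨G, B, hG, hB, rfl⟩
    have h1 : MeasurableSet[m1 ⊔ m2] G := (le_sup_left : m1 ≤ m1 ⊔ m2) _ hG
    have h2 : MeasurableSet[m1 ⊔ m2] B := (le_sup_right : m2 ≤ m1 ⊔ m2) _ hB
    exact @MeasurableSet.inter _ (m1 ⊔ m2) _ _ h1 h2

/-- equality of set integrals on a generated sigma algebra -/
theorem pl {Ω : Type} [mΩ : MeasurableSpace Ω] (P : Measure Ω) [IsFiniteMeasure P]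
    (m1 m2 : MeasurableSpace Ω) (h1 : m1 ≤ mΩ) (h2 : m2 ≤ mΩ) (u v : Ω → ℝ)
    (hu : Integrable u P) (hv : Integrable v P)
    (h : ∀ G B : Set Ω, MeasurableSet[m1] G → MeasurableSet[m2] B →
      ∫ ω in G ∩ B, u ω ∂P = ∫ ω in G ∩ B, v ω ∂P) (G : Set Ω)
    (hG : MeasurableSet[m1 ⊔ m2] G) : ∫ ω in G, u ω ∂P = ∫ ω in G, v ω ∂P := by
  have hle : m1 ⊔ m2 ≤ mΩ := sup_le h1 h2
  have huniv : ∫ ω, u ω ∂P = ∫ ω, v ω ∂P := by
    have := h Set.univ Set.univ (@MeasurableSet.univ _ m1) (@MeasurableSet.univ _ m2)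
    rw [Set.univ_inter, setIntegral_univ, setIntegral_univ] at this
    exact this
  refine MeasurableSpace.induction_on_inter (m := m1 ⊔ m2) (s := inter2 m1 m2)
    (C := fun G _ => ∫ ω in G, u ω ∂P = ∫ ω in G, v ω ∂P)
    (inter2_gen m1 m2) (inter2_pi m1 m2) ?_ ?_ ?_ ?_ G hG
  · simp
  · rintro _ ⟨G, B, hG, hB, rfl⟩
    exact h G B hG hB
  · intro t ht ih
    rw [setIntegral_compl (hle _ ht) hu, setIntegral_compl (hle _ ht) hv, ih, huniv]
  · intro s hd hs ih
    rw [integral_iUnion (fun i => hle _ (hs i)) hd hu.integrableOn,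
      integral_iUnion (fun i => hle _ (hs i)) hd hv.integrableOn]
    exact tsum_congr ih

theorem stepo : P_XM → P_INDEP → P_BR → P_STEPO := by
  intro hXM hI hB S mS μ hμ p F hK hR a G hG f hf hfC
  classical
  obtain ⟨C, hC⟩ := hfC
  obtain ⟨hXm, -, -, hpast⟩ := hXM S mS F hR.meas
  have hXe : ∀ ω : Om S, XX F (2 * a + 2) ω = (ω (a + 1)).1 := by
    intro ω
    unfold XX
    rw [if_pos (by omega), show (2 * a + 2) / 2 = a + 1 by omega]
  have hXo : ∀ ω : Om S, XX F (2 * a + 1) ω = F ((ω a).1, (ω (a + 1)).1) (ω (a + 1)).2 := by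
    intro ω
    unfold XX
    rw [if_neg (by omega), show (2 * a + 1) / 2 = a by omega]
  -- the transition operator
  have hPm : Measurable (Pf μ p f) := by
    have h1 : StronglyMeasurable (Function.uncurry fun x y => p x y * f y) := by
      refine Measurable.stronglyMeasurable ?_
      exact hK.meas.mul (hf.comp measurable_snd)
    exact h1.integral_prod_right.measurable
  have hPC : ∀ z, |Pf μ p f z| ≤ C := by
    intro z
    obtain ⟨Cp, hCp⟩ := hK.bdd
    have hpm : Measurable (p z) := hK.meas.comp measurable_prodMk_left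
    have hpi : Integrable (p z) μ := by
      refine Integrable.of_bound hpm.aestronglyMeasurable Cp (Eventually.of_forall fun y => ?_)
      rw [Real.norm_eq_abs, abs_of_nonneg (hK.nonneg z y)]
      exact hCp z y
    have h1 : ‖Pf μ p f z‖ ≤ ∫ y, C * p z y ∂μ := by
      unfold Pf
      refine norm_integral_le_of_norm_le (hpi.const_mul C) (Eventually.of_forall fun y => ?_)
      rw [norm_mul, Real.norm_eq_abs, Real.norm_eq_abs, abs_of_nonneg (hK.nonneg z y), mul_comm]
      exact mul_le_mul_of_nonneg_right (hC y) (hK.nonneg z y)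
    rw [integral_const_mul, hK.row z, mul_one] at h1
    exact h1
  have hC0 : 0 ≤ C := by
    have : Nonempty (Om S) := by
      by_contra hne
      rw [not_nonempty_iff] at hne
      have h1 := measure_univ (μ := PM μ)
      rw [Set.eq_empty_of_isEmpty (Set.univ : Set (Om S)), measure_empty] at h1
      exact zero_ne_one h1
    obtain ⟨ω⟩ := this
    exact (abs_nonneg _).trans (hC (ω 0).1)
  -- integrability
  have hum : Measurable fun ω : Om S => f (XX F (2 * a + 2) ω) := hf.comp (hXm _)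
  have hvm : Measurable fun ω : Om S => Pf μ p f (XX F (2 * a + 1) ω) := hPm.comp (hXm _)
  have hui : Integrable (fun ω : Om S => f (XX F (2 * a + 2) ω)) (PM μ) :=
    Integrable.of_bound hum.aestronglyMeasurable C (Eventually.of_forall fun ω => hC _)
  have hvi : Integrable (fun ω : Om S => Pf μ p f (XX F (2 * a + 1) ω)) (PM μ) :=
    Integrable.of_bound hvm.aestronglyMeasurable C (Eventually.of_forall fun ω => hPC _)
  have hbase : base S a ≤ MeasurableSpace.pi := by
    refine iSup₂_le fun m _ => ?_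
    exact (measurable_pi_apply m).comap_le
  refine pl (PM μ) (base S a) (MeasurableSpace.comap (XX F (2 * a + 1)) inferInstance) hbase
    (hXm _).comap_le _ _ hui hvi ?_ G (hpast a _ hG)
  rintro G1 _ hG1 ⟨B, hBm, rfl⟩
  have hFm : Measurable (Function.uncurry F) := hR.meas
  -- rewriting as integrals over G1
  have hpre : MeasurableSet (XX F (2 * a + 1) ⁻¹' B) := (hXm _) hBm
  set ib : S → ℝ := B.indicator (fun _ => (1 : ℝ)) with hib
  have hibm : Measurable ib := measurable_const.indicator hBm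
  have hib1 : ∀ z, |ib z| ≤ 1 := by
    intro z
    simp only [hib, Set.indicator_apply]
    split_ifs <;> simp
  have key : ∀ w : Om S → ℝ, ∫ ω in G1 ∩ XX F (2 * a + 1) ⁻¹' B, w ω ∂(PM μ) =
      ∫ ω in G1, ib (XX F (2 * a + 1) ω) * w ω ∂(PM μ) := by
    intro w
    rw [← setIntegral_indicator hpre]
    congr 1
    funext ω
    simp only [hib, Set.indicator_apply, Set.mem_preimage]
    split_ifs <;> simp
  rw [key, key]
  -- the two functions
  set φ : S → S × unitInterval → ℝ := fun y w => ib (F (y, w.1) w.2) * f w.1 with hφ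
  set ψ : S → S × unitInterval → ℝ := fun y w => ib (F (y, w.1) w.2) *
    Pf μ p f (F (y, w.1) w.2) with hψ
  have hFw : Measurable fun q : S × (S × unitInterval) => F (q.1, q.2.1) q.2.2 :=
    hFm.comp ((measurable_fst.prodMk (measurable_fst.comp measurable_snd)).prodMk
      (measurable_snd.comp measurable_snd))
  have hφm : Measurable (Function.uncurry φ) :=
    (hibm.comp hFw).mul (hf.comp (measurable_fst.comp measurable_snd))
  have hψm : Measurable (Function.uncurry ψ) :=
    (hibm.comp hFw).mul (hPm.comp hFw)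
  have hmul : ∀ s t : ℝ, |s| ≤ 1 → |t| ≤ C → |s * t| ≤ C := by
    intro s t hs ht
    rw [abs_mul]
    calc |s| * |t| ≤ 1 * C := mul_le_mul hs ht (abs_nonneg _) zero_le_one
      _ = C := one_mul _
  have e1 : ∫ ω in G1, ib (XX F (2 * a + 1) ω) * f (XX F (2 * a + 2) ω) ∂(PM μ) =
      ∫ ω in G1, φ (ω a).1 (ω (a + 1)) ∂(PM μ) := by
    congr 1
    funext ω
    rw [hXe, hXo]
  have e2 : ∫ ω in G1, ib (XX F (2 * a + 1) ω) * Pf μ p f (XX F (2 * a + 1) ω) ∂(PM μ) =
      ∫ ω in G1, ψ (ω a).1 (ω (a + 1)) ∂(PM μ) := by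
    congr 1
    funext ω
    rw [hXo]
  rw [e1, e2, hI S mS μ hμ a G1 hG1 φ hφm ⟨C, fun y w => hmul _ _ (hib1 _) (hC _)⟩,
    hI S mS μ hμ a G1 hG1 ψ hψm ⟨C, fun y w => hmul _ _ (hib1 _) (hPC _)⟩]
  congr 1
  funext ω
  have b1 := hB S mS μ hμ p F hK hR (ω a).1 (fun y z => ib z * f y)
    ((hibm.comp measurable_snd).mul (hf.comp measurable_fst))
    ⟨C, fun y z => hmul _ _ (hib1 _) (hC _)⟩
  have b2 := hB S mS μ hμ p F hK hR (ω a).1 (fun y z => ib z * Pf μ p f z)
    ((hibm.comp measurable_snd).mul (hPm.comp measurable_snd))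
    ⟨C, fun y z => hmul _ _ (hib1 _) (hPC _)⟩
  refine b1.trans (Eq.trans ?_ b2.symm)
  congr 1
  funext z
  congr 1
  have c1 : ∫ y, p z y * (ib z * f y) ∂μ = ib z * Pf μ p f z := by
    unfold Pf
    rw [← integral_const_mul]
    congr 1
    funext y
    ring
  have c2 : ∫ y, p z y * (ib z * Pf μ p f z) ∂μ = ib z * Pf μ p f z := by
    rw [integral_mul_const, hK.row z, one_mul]
  rw [c1, c2]

end Pool.Agent.W74.MK
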